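import Pool.Agent.H43.G.R_pool_sql_team_seeded_3997aac3.Q211.KS.Pow

/-!
# Project KS (helper240), job LVH
-/

set_option autoImplicit false

namespace Pool.Agent.Q211.KS

open Finset Pool.Agent.H376R2.MR Pool.Agent.Q240.KS

theorem lvh (h : S_HU) : S_LVH := by
  classical
  intro m ε hm hε
  obtain ⟨Ch, hCh, hhu⟩ := h
  obtain ⟨C₁, hC₁, hpow⟩ := pow_DP m (ε / 24) (by positivity)
  obtain ⟨C₂, hC₂, hlin⟩ := one_add_le_exp (show 0 < ε / 12 by positivity)
  have hm0 : (1 : ℝ) ≤ m := by exact_mod_cast hm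
  set J : ℕ := m + 1 with hJ
  have hJ0 : (1 : ℝ) ≤ J := by
    rw [hJ]
    push_cast
    linarith
  -- the constant for the sums
  set G₀ : ℝ := C₁ ^ 2 * ((1 + m) * C₂) with hG₀
  have hG₀1 : 1 ≤ G₀ := by
    have h1 : 1 ≤ C₁ ^ 2 := one_le_pow₀ hC₁
    have h2 : 1 ≤ (1 + (m : ℝ)) * C₂ := by nlinarith
    rw [hG₀]
    nlinarith
  set A₀ : ℝ := ((2 + m) * C₂) ^ 2 with hA₀
  refine ⟨max 1 (J * (Ch * A₀ * (G₀ ^ 3 * J ^ 6 * Real.exp (m / 10)))), le_max_left _ _, ?_⟩
  intro z t d K V L hK hV hL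
  obtain ⟨s, b, hb1, hb2, hb3⟩ := hpow z t d
  have hd : (0 : ℝ) ≤ d := Nat.cast_nonneg d
  have hK0 : (1 : ℝ) ≤ K := by exact_mod_cast hK
  set c : ℝ := m * (((d : ℝ) - 1) / 20) with hc
  have hpos2 : 0 ≤ m * (((d : ℝ) + 1) / 20) := by positivity
  -- the pieces
  set g : ℕ → ℕ := fun n => ⌊Real.log n - c⌋₊ with hg
  have hgJ : ∀ n ∈ s, g n ∈ range J := by
    intro n hn
    obtain ⟨h1, h2, h3⟩ := hb2 n hn
    rw [Finset.mem_range]
    have h4 : Real.log n - c ≤ m / 10 := by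
      rw [hc]
      linarith
    have h5 : (g n : ℝ) ≤ m / 10 := (Nat.floor_le (by linarith)).trans h4
    have h6 : (g n : ℝ) < J := by
      rw [hJ]
      push_cast
      linarith
    exact_mod_cast h6
  set sj : ℕ → Finset ℕ := fun j => s.filter (fun n => g n = j) with hsj
  set Nj : ℕ → ℝ := fun j => Real.exp (max 0 (c + j)) with hNj
  have hNj1 : ∀ j, 1 ≤ Nj j := fun j => Real.one_le_exp (le_max_left _ _)
  have hclose : ∀ j, ∀ n ∈ sj j, 1 ≤ n ∧ |Real.log n - Real.log (Nj j)| ≤ 2 := by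
    intro j n hn
    rw [hsj, Finset.mem_filter] at hn
    obtain ⟨h1, h2, h3⟩ := hb2 n hn.1
    have hlog0 : 0 ≤ Real.log n := Real.log_nonneg (by exact_mod_cast h1)
    have h4 : (j : ℝ) ≤ Real.log n - c := by
      rw [← hn.2]
      exact Nat.floor_le (by linarith)
    have h5 : Real.log n - c < j + 1 := by
      rw [← hn.2]
      exact Nat.lt_floor_add_one _
    refine ⟨h1, ?_⟩
    rw [hNj, Real.log_exp, abs_le]
    rcases le_total 0 (c + j) with h6 | h6
    · rw [max_eq_right h6]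
      constructor <;> linarith
    · rw [max_eq_left h6]
      constructor <;> linarith
  have hsplit : ∀ k : ℤ, DP s b k = ∑ j ∈ range J, DP (sj j) b k := by
    intro k
    unfold DP
    rw [← Finset.sum_fiberwise_of_maps_to hgJ]
  -- the energies
  have hG : ∀ j, ∑ n ∈ sj j, (n : ℝ) * ‖b n‖ ^ 2 ≤ G₀ * Real.exp (ε / 6 * d) := by
    intro j
    have h1 : ∀ n ∈ sj j, (n : ℝ) * ‖b n‖ ^ 2 ≤ C₁ ^ 2 * Real.exp (ε / 12 * d) * (1 / (n : ℝ)) := by
      intro n hn
      rw [hsj, Finset.mem_filter] at hn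
      have hn0 : (0 : ℝ) < n := by exact_mod_cast (hb2 n hn.1).1
      have h1 := pow_le_pow_left₀ (norm_nonneg _) (hb3 n hn.1) 2
      have h2 : (C₁ * Real.exp (ε / 24 * d) / n) ^ 2 =
          C₁ ^ 2 * Real.exp (ε / 12 * d) / (n : ℝ) ^ 2 := by
        rw [div_pow, mul_pow, ← Real.exp_nat_mul]
        congr 3
        push_cast
        ring
      rw [h2] at h1
      calc (n : ℝ) * ‖b n‖ ^ 2 ≤ n * (C₁ ^ 2 * Real.exp (ε / 12 * d) / (n : ℝ) ^ 2) :=
            mul_le_mul_of_nonneg_left h1 hn0.le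
        _ = _ := by
            field_simp
    have h2 := sum_inv_le (s := sj j) (A := m * (((d : ℝ) + 1) / 20))
      (fun n hn => by
        rw [hsj, Finset.mem_filter] at hn
        exact ⟨(hb2 n hn.1).1, (hb2 n hn.1).2.2⟩)
    rw [max_eq_left hpos2] at h2
    have h3 := hlin d hd
    have h4 : 1 + m * (((d : ℝ) + 1) / 20) ≤ (1 + m) * (1 + d) := by
      have : 0 ≤ (m : ℝ) * d := by positivity
      linarith
    have h5 : ∑ n ∈ sj j, 1 / (n : ℝ) ≤ (1 + m) * C₂ * Real.exp (ε / 12 * d) := by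
      calc _ ≤ (1 + (m : ℝ)) * (1 + d) := h2.trans h4
        _ ≤ (1 + m) * (C₂ * Real.exp (ε / 12 * d)) := mul_le_mul_of_nonneg_left h3 (by positivity)
        _ = _ := by ring
    refine (Finset.sum_le_sum h1).trans ?_
    rw [← Finset.mul_sum]
    calc C₁ ^ 2 * Real.exp (ε / 12 * d) * ∑ n ∈ sj j, 1 / (n : ℝ) ≤
        C₁ ^ 2 * Real.exp (ε / 12 * d) * ((1 + m) * C₂ * Real.exp (ε / 12 * d)) :=
          mul_le_mul_of_nonneg_left h5 (by positivity)
      _ = G₀ * (Real.exp (ε / 12 * d) * Real.exp (ε / 12 * d)) := by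
          rw [hG₀]
          ring
      _ = _ := by
          rw [← Real.exp_add]
          congr 2
          ring
  have hA : ∀ j ∈ range J, (1 + Real.log (Nj j)) ^ 2 ≤ A₀ * Real.exp (ε / 6 * d) := by
    intro j hj
    rw [Finset.mem_range] at hj
    have hj' : (j : ℝ) ≤ m := by
      have : j ≤ m := by omega
      exact_mod_cast this
    have h1 : 1 + Real.log (Nj j) ≤ (2 + m) * (1 + d) := by
      rw [hNj, Real.log_exp]
      have h2 : max 0 (c + j) ≤ m * (d / 20) + m := by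
        apply max_le (by positivity)
        rw [hc]
        nlinarith
      have h3 : 0 ≤ (m : ℝ) * d := by positivity
      linarith
    have h0 : 0 ≤ 1 + Real.log (Nj j) := by
      have := Real.log_nonneg (hNj1 j)
      linarith
    have h2 : 1 + Real.log (Nj j) ≤ (2 + m) * C₂ * Real.exp (ε / 12 * d) := by
      calc _ ≤ (2 + (m : ℝ)) * (1 + d) := h1
        _ ≤ (2 + m) * (C₂ * Real.exp (ε / 12 * d)) :=
          mul_le_mul_of_nonneg_left (hlin d hd) (by positivity)
        _ = _ := by ring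
    calc (1 + Real.log (Nj j)) ^ 2 ≤ ((2 + m) * C₂ * Real.exp (ε / 12 * d)) ^ 2 :=
          pow_le_pow_left₀ h0 h2 2
      _ = A₀ * Real.exp (ε / 6 * d) := by
          rw [mul_pow, ← hA₀, ← Real.exp_nat_mul]
          congr 2
          push_cast
          ring
  -- the sets
  have hV' : 0 < V ^ m / J := by positivity
  set Lj : ℕ → Finset ℤ := fun j => L.filter (fun k => V ^ m / J ≤ ‖DP (sj j) b k‖) with hLj
  have hcover : L ⊆ (range J).biUnion Lj := by
    intro k hk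
    rw [Finset.mem_biUnion]
    by_contra hcon
    push Not at hcon
    have h1 : ∀ j ∈ range J, ‖DP (sj j) b k‖ < V ^ m / J := by
      intro j hj
      have h2 := hcon j hj
      rw [hLj, Finset.mem_filter] at h2
      push Not at h2
      exact h2 hk
    have h2 : V ^ m ≤ ‖DP s b k‖ := by
      rw [← hb1 k, norm_pow]
      exact pow_le_pow_left₀ hV.le (hL k hk).2 _
    have h3 : ‖DP s b k‖ < V ^ m := by
      rw [hsplit k]
      refine (norm_sum_le _ _).trans_lt ?_
      have h4 : ∑ j ∈ range J, ‖DP (sj j) b k‖ < ∑ j ∈ range J, V ^ m / J :=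
        Finset.sum_lt_sum_of_nonempty (by rw [Finset.nonempty_range_iff]; omega) h1
      refine h4.trans_le (le_of_eq ?_)
      rw [Finset.sum_const, Finset.card_range, nsmul_eq_mul]
      field_simp
    linarith
  have hcard : (L.card : ℝ) ≤ ∑ j ∈ range J, ((Lj j).card : ℝ) := by
    have := (Finset.card_le_card hcover).trans Finset.card_biUnion_le
    exact_mod_cast this
  -- the bound for one piece
  have hone : ∀ j ∈ range J, ((Lj j).card : ℝ) ≤
      Ch * A₀ * (G₀ ^ 3 * J ^ 6 * Real.exp (m / 10)) * Real.exp (ε * d) *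
        (1 / V ^ (2 * m) + K * Real.exp (-(m * d / 10 : ℝ)) / V ^ (6 * m)) := by
    intro j hj
    have h1 := hhu (sj j) b (Nj j) K (V ^ m / J) (Lj j) (hNj1 j) (hclose j) hK hV' (by
      intro k hk
      rw [hLj, Finset.mem_filter] at hk
      exact ⟨(hL k hk.1).1, hk.2⟩)
    set G : ℝ := ∑ n ∈ sj j, (n : ℝ) * ‖b n‖ ^ 2 with hGdef
    have hG0 : 0 ≤ G := Finset.sum_nonneg fun _ _ => by positivity
    set E : ℝ := Real.exp (ε / 6 * d) with hE
    have hE1 : 1 ≤ E := Real.one_le_exp (by positivity)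
    have hGE : G ≤ G₀ * E := hG j
    have hN2 : 1 / Nj j ^ 2 ≤ Real.exp (m / 10) * Real.exp (-(m * d / 10 : ℝ)) := by
      have h2 : Real.exp c ≤ Nj j := by
        rw [hNj]
        apply Real.exp_le_exp.2
        exact le_trans (by linarith [Nat.cast_nonneg (α := ℝ) j]) (le_max_right _ _)
      calc 1 / Nj j ^ 2 ≤ 1 / Real.exp c ^ 2 := by
            apply one_div_le_one_div_of_le (by positivity)
            exact pow_le_pow_left₀ (Real.exp_pos _).le h2 2
        _ = _ := by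
            rw [one_div, ← Real.exp_nat_mul, ← Real.exp_neg, ← Real.exp_add, hc]
            congr 1
            push_cast
            ring
    have hfirst : G / (V ^ m / J) ^ 2 ≤ G₀ ^ 3 * J ^ 6 * Real.exp (m / 10) * E ^ 3 * (1 / V ^ (2 * m)) := by
      have e1 : G / (V ^ m / J) ^ 2 = G * (J : ℝ) ^ 2 * (1 / V ^ (2 * m)) := by
        rw [div_pow, ← pow_mul, mul_comm m 2]
        field_simp
      rw [e1]
      apply mul_le_mul_of_nonneg_right _ (by positivity)
      have e2 : G₀ ≤ G₀ ^ 3 := by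
        calc G₀ = G₀ ^ 1 := (pow_one _).symm
          _ ≤ G₀ ^ 3 := pow_le_pow_right₀ hG₀1 (by norm_num)
      have e3 : E ≤ E ^ 3 := by
        calc E = E ^ 1 := (pow_one _).symm
          _ ≤ E ^ 3 := pow_le_pow_right₀ hE1 (by norm_num)
      have e4 : (J : ℝ) ^ 2 ≤ (J : ℝ) ^ 6 := pow_le_pow_right₀ hJ0 (by norm_num)
      have e5 : (1 : ℝ) ≤ Real.exp (m / 10) := Real.one_le_exp (by positivity)
      calc G * (J : ℝ) ^ 2 ≤ (G₀ * E) * (J : ℝ) ^ 2 := mul_le_mul_of_nonneg_right hGE (by positivity)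
        _ ≤ (G₀ ^ 3 * E ^ 3) * (J : ℝ) ^ 6 := by
            apply mul_le_mul _ e4 (by positivity) (by positivity)
            exact mul_le_mul e2 e3 (by positivity) (by positivity)
        _ = G₀ ^ 3 * J ^ 6 * 1 * E ^ 3 := by ring
        _ ≤ G₀ ^ 3 * J ^ 6 * Real.exp (m / 10) * E ^ 3 := by
            apply mul_le_mul_of_nonneg_right _ (by positivity)
            exact mul_le_mul_of_nonneg_left e5 (by positivity)
    have hsecond : K * G ^ 3 / (Nj j ^ 2 * (V ^ m / J) ^ 6) ≤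
        G₀ ^ 3 * J ^ 6 * Real.exp (m / 10) * E ^ 3 *
          (K * Real.exp (-(m * d / 10 : ℝ)) / V ^ (6 * m)) := by
      have hNpos : 0 < Nj j := lt_of_lt_of_le one_pos (hNj1 j)
      have e1 : K * G ^ 3 / (Nj j ^ 2 * (V ^ m / J) ^ 6) =
          K * G ^ 3 * (J : ℝ) ^ 6 * (1 / Nj j ^ 2) / V ^ (6 * m) := by
        rw [div_pow, ← pow_mul, mul_comm m 6]
        field_simp
      rw [e1]
      have e2 : G ^ 3 ≤ G₀ ^ 3 * E ^ 3 := by
        rw [← mul_pow]
        exact pow_le_pow_left₀ hG0 hGE 3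
      have e3 : K * G ^ 3 * (J : ℝ) ^ 6 * (1 / Nj j ^ 2) ≤
          K * (G₀ ^ 3 * E ^ 3) * (J : ℝ) ^ 6 *
            (Real.exp (m / 10) * Real.exp (-(m * d / 10 : ℝ))) := by
        apply mul_le_mul _ hN2 (by positivity) (by positivity)
        apply mul_le_mul_of_nonneg_right _ (by positivity)
        exact mul_le_mul_of_nonneg_left e2 (by positivity)
      calc K * G ^ 3 * (J : ℝ) ^ 6 * (1 / Nj j ^ 2) / V ^ (6 * m) ≤
          K * (G₀ ^ 3 * E ^ 3) * (J : ℝ) ^ 6 *
            (Real.exp (m / 10) * Real.exp (-(m * d / 10 : ℝ))) / V ^ (6 * m) :=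
            div_le_div_of_nonneg_right e3 (by positivity)
        _ = _ := by ring
    have hAE := hA j hj
    have hsumle : G / (V ^ m / J) ^ 2 + K * G ^ 3 / (Nj j ^ 2 * (V ^ m / J) ^ 6) ≤
        G₀ ^ 3 * J ^ 6 * Real.exp (m / 10) * E ^ 3 *
          (1 / V ^ (2 * m) + K * Real.exp (-(m * d / 10 : ℝ)) / V ^ (6 * m)) := by
      rw [mul_add]
      exact add_le_add hfirst hsecond
    have hE4 : E * E ^ 3 ≤ Real.exp (ε * d) := by
      have : E * E ^ 3 = Real.exp (4 * (ε / 6 * d)) := by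
        rw [hE, ← pow_succ', ← Real.exp_nat_mul]
        norm_num
      rw [this]
      apply Real.exp_le_exp.2
      have : 0 ≤ ε * d := by positivity
      linarith
    have hnn : 0 ≤ G / (V ^ m / J) ^ 2 + K * G ^ 3 / (Nj j ^ 2 * (V ^ m / J) ^ 6) := by positivity
    calc ((Lj j).card : ℝ) ≤ Ch * (1 + Real.log (Nj j)) ^ 2 *
          (G / (V ^ m / J) ^ 2 + K * G ^ 3 / (Nj j ^ 2 * (V ^ m / J) ^ 6)) := h1
      _ ≤ Ch * (A₀ * E) * (G₀ ^ 3 * J ^ 6 * Real.exp (m / 10) * E ^ 3 *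
          (1 / V ^ (2 * m) + K * Real.exp (-(m * d / 10 : ℝ)) / V ^ (6 * m))) := by
          apply mul_le_mul _ hsumle hnn (by positivity)
          exact mul_le_mul_of_nonneg_left hAE (by linarith)
      _ = Ch * A₀ * (G₀ ^ 3 * J ^ 6 * Real.exp (m / 10)) * (E * E ^ 3) *
          (1 / V ^ (2 * m) + K * Real.exp (-(m * d / 10 : ℝ)) / V ^ (6 * m)) := by ring
      _ ≤ _ := by
          apply mul_le_mul_of_nonneg_right _ (by positivity)
          exact mul_le_mul_of_nonneg_left hE4 (by positivity)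
  refine hcard.trans ((Finset.sum_le_sum hone).trans ?_)
  rw [Finset.sum_const, Finset.card_range, nsmul_eq_mul]
  calc (J : ℝ) * (Ch * A₀ * (G₀ ^ 3 * J ^ 6 * Real.exp (m / 10)) * Real.exp (ε * d) *
        (1 / V ^ (2 * m) + K * Real.exp (-(m * d / 10 : ℝ)) / V ^ (6 * m))) =
      (J * (Ch * A₀ * (G₀ ^ 3 * J ^ 6 * Real.exp (m / 10)))) * Real.exp (ε * d) *
        (1 / V ^ (2 * m) + K * Real.exp (-(m * d / 10 : ℝ)) / V ^ (6 * m)) := by ring
    _ ≤ _ := by
        apply mul_le_mul_of_nonneg_right _ (by positivity)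
        exact mul_le_mul_of_nonneg_right (le_max_right _ _) (Real.exp_pos _).le

end Pool.Agent.Q211.KS
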